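import Pool.Agent.R464.DC.Chain

/-!
# Every small complex number is approximated by signed sums over large primes
-/

set_option autoImplicit false

open Finset Filter Topology Complex

namespace R464.DC

theorem small_end {r : ℝ} (hr : 1 ≤ r) {y : ℕ} (hy : 1 ≤ y) {ε : ℝ} (hε : 0 < ε) :
    ∃ J : ℕ, CC * ((2 ^ (80 * J) * y : ℕ) : ℝ) ^ (-r) < ε := by
  obtain ⟨J, hJ⟩ := exists_nat_gt ((CC : ℝ) / ε)
  refine ⟨J, ?_⟩
  set n : ℕ := 2 ^ (80 * J) * y
  have h1 : J < n := by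
    calc J < 2 ^ J := Nat.lt_two_pow_self
      _ ≤ 2 ^ (80 * J) := Nat.pow_le_pow_right (by norm_num) (by omega)
      _ ≤ n := Nat.le_mul_of_pos_right _ (by omega)
  have h2 : (J : ℝ) < n := by exact_mod_cast h1
  have h3 : (1 : ℝ) ≤ n := by exact_mod_cast (by omega : 1 ≤ n)
  have h4 : (n : ℝ) ^ (-r) ≤ (n : ℝ)⁻¹ := by
    rw [← Real.rpow_neg_one]
    exact Real.rpow_le_rpow_of_exponent_le h3 (by linarith)
  have h5 : (CC : ℝ) * (n : ℝ) ^ (-r) ≤ CC * (n : ℝ)⁻¹ := mul_le_mul_of_nonneg_left h4 (by positivity)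
  refine h5.trans_lt ?_
  rw [← div_eq_mul_inv, div_lt_iff₀ (by linarith)]
  rw [div_lt_iff₀ hε] at hJ
  nlinarith

theorem rpow_ge_half {Y : ℕ} (hY : 2 ≤ Y) {r : ℝ} (hr : 1 < r)
    (hr1 : r < 1 + Real.log 2 / Real.log Y) {q : ℕ} (hq : 1 ≤ q) (hqY : q ≤ Y) :
    1 / 2 * ((1 : ℝ) / q) ≤ (q : ℝ) ^ (-r) := by
  have hq' : (1 : ℝ) ≤ q := by exact_mod_cast hq
  have hqY' : (q : ℝ) ≤ Y := by exact_mod_cast hqY
  have hY' : (2 : ℝ) ≤ Y := by exact_mod_cast hY
  have hlY : 0 < Real.log Y := Real.log_pos (by linarith)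
  have h1 : (q : ℝ) ^ (-r) = (q : ℝ) ^ (-(r - 1)) * (1 / q) := by
    rw [one_div, ← Real.rpow_neg_one, ← Real.rpow_add (by linarith)]
    congr 1; ring
  have h2 : (1 : ℝ) / 2 ≤ (q : ℝ) ^ (-(r - 1)) := by
    calc (1 : ℝ) / 2 = Real.exp (-Real.log 2) := by
          rw [Real.exp_neg, Real.exp_log (by norm_num)]; norm_num
      _ ≤ Real.exp (Real.log Y * (-(r - 1))) := by
          refine Real.exp_le_exp.mpr ?_
          have : r - 1 ≤ Real.log 2 / Real.log Y := by linarith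
          rw [le_div_iff₀ hlY] at this
          nlinarith
      _ = (Y : ℝ) ^ (-(r - 1)) := by rw [Real.rpow_def_of_pos (by linarith)]
      _ ≤ (q : ℝ) ^ (-(r - 1)) :=
          Real.rpow_le_rpow_of_nonpos (by linarith) hqY' (by linarith)
  rw [h1]
  exact mul_le_mul_of_nonneg_right h2 (by positivity)

/-- The primes of one residue class of blocks. -/
def colSet (y k J : ℕ) : Finset ℕ := (range J).biUnion fun j => H (2 ^ (80 * j + k) * y)

theorem mem_colSet {y k J q : ℕ} : q ∈ colSet y k J ↔ ∃ j < J, q ∈ H (2 ^ (80 * j + k) * y) := by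
  simp [colSet]

theorem sum_colSet {y k J Y : ℕ} (hY2 : 2 ≤ Y) (hY : 2 ^ (80 * J + k) * y ≤ Y) {r : ℝ} (hr : 1 < r)
    (hr1 : r < 1 + Real.log 2 / Real.log Y) :
    1 / 2 * ∑ j ∈ range J, ∑ q ∈ H (2 ^ (80 * j) * (2 ^ k * y)), (1 : ℝ) / q ≤
      ∑ q ∈ colSet y k J, (q : ℝ) ^ (-r) := by
  unfold colSet
  rw [sum_biUnion, mul_sum]
  · refine sum_le_sum fun j hj => ?_
    rw [mem_range] at hj
    rw [← mul_assoc, ← pow_add, mul_sum]
    refine sum_le_sum fun q hq => ?_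
    rw [mem_H] at hq
    refine rpow_ge_half hY2 hr hr1 hq.2.pos (le_trans hq.1.2 (le_trans ?_ hY))
    have : 4 * (2 ^ (80 * j + k) * y) = 2 ^ (80 * j + k + 2) * y := by
      rw [pow_add 2 (80 * j + k) 2]; ring
    rw [this]
    exact Nat.mul_le_mul_right _ (Nat.pow_le_pow_right (by norm_num) (by omega))
  · intro i _ j _ hij
    exact pow_disj (by omega)

theorem reach_all : ∃ r₀ : ℝ, 1 < r₀ ∧ ∀ r, 1 < r → r < r₀ → ∀ p : ℕ, 1 ≤ p → ∀ w : ℂ,
    ‖w‖ ≤ 3 * (p : ℝ) ^ (-r) → ∀ ε > 0, ∃ P N : Finset ℕ, (∀ q ∈ P, q.Prime ∧ p < q) ∧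
      (∀ q ∈ N, q.Prime ∧ p < q) ∧ ‖w - (∑ q ∈ P, vq r q - ∑ q ∈ N, vq r q)‖ < ε := by
  obtain ⟨n₁, hn₁⟩ := eventually_atTop.mp card_H
  obtain ⟨n₂, hn₂⟩ := eventually_atTop.mp (card_H_ge (2 ^ 210))
  set x : ℕ := max (max n₁ n₂) 16 with hx
  have hx1 : n₁ ≤ x := (le_max_left _ _).trans (le_max_left _ _)
  have hx2 : n₂ ≤ x := (le_max_right _ _).trans (le_max_left _ _)
  have hx16 : 16 ≤ x := le_max_right _ _
  have hxk : ∀ k, x ≤ 2 ^ k * x := fun k => Nat.le_mul_of_pos_left _ (by positivity)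
  have hd : ∀ k, Tendsto (fun J => ∑ j ∈ range J, ∑ q ∈ H (2 ^ (80 * j) * (2 ^ k * x)), (1 : ℝ) / q)
      atTop atTop := fun k => sum_blocks hn₁ (hx1.trans (hxk k)) (by have := hxk k; omega)
  obtain ⟨J, hJ1, hJ2⟩ := ((tendsto_atTop.mp (hd 2) 49).and (tendsto_atTop.mp (hd 22) 49)).exists
  set Y : ℕ := 2 ^ (80 * J + 22) * x with hY
  have hY2 : 2 ≤ Y := by have := hxk (80 * J + 22); omega
  have hY1 : 2 ^ (80 * J + 2) * x ≤ Y :=
    Nat.mul_le_mul_right _ (Nat.pow_le_pow_right (by norm_num) (by omega))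
  have hlY : 0 < Real.log Y := Real.log_pos (by exact_mod_cast (by omega : 1 < Y))
  refine ⟨min 2 (1 + Real.log 2 / Real.log Y), ?_, ?_⟩
  · refine lt_min (by norm_num) ?_
    have := div_pos log_two_pos hlY
    linarith
  intro r hr hr0 p hp w hw ε hε
  have hr2 : r ≤ 2 := (hr0.trans_le (min_le_left _ _)).le
  have hr1 : r < 1 + Real.log 2 / Real.log Y := hr0.trans_le (min_le_right _ _)
  have hCC : (4 : ℝ) ≤ CC := by unfold CC; norm_num
  by_cases hpx : x ≤ p
  · -- large primes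
    have hA : 0 < (p : ℝ) ^ (-r) := by
      have : (0 : ℝ) < p := by exact_mod_cast hp
      positivity
    obtain ⟨K, hK⟩ := small_end hr.le hp hε
    obtain ⟨R', h1, P, N, hP, hN, -, he⟩ := chain hn₂ hr.le hr2 (y := p) (hx2.trans hpx)
      (hx16.trans hpx) (R := w) (hw.trans (by nlinarith)) K
    have hmem : ∀ q ∈ chainSet p K, q.Prime ∧ p < q := by
      intro q hq
      obtain ⟨j, -, hq⟩ := mem_chainSet.mp hq
      rcases hq with hq | hq <;> rw [mem_H] at hq <;> refine ⟨hq.2, lt_of_le_of_lt ?_ hq.1.1⟩ <;>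
        exact Nat.le_mul_of_pos_left _ (by positivity)
    refine ⟨P, N, fun q hq => hmem q (hP hq), fun q hq => hmem q (hN hq), ?_⟩
    rw [← he]
    exact h1.trans_lt hK
  · push Not at hpx
    have hw3 : ‖w‖ ≤ 3 := by
      have h1 : (1 : ℝ) ≤ p := by exact_mod_cast hp
      have : (p : ℝ) ^ (-r) ≤ 1 := Real.rpow_le_one_of_one_le_of_nonpos h1 (by linarith)
      linarith
    have hdisj : Disjoint (colSet x 2 J) (colSet x 22 J) := by
      rw [Finset.disjoint_left]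
      intro q h1 h2
      obtain ⟨i, -, hi⟩ := mem_colSet.mp h1
      obtain ⟨j, -, hj⟩ := mem_colSet.mp h2
      by_cases hij : i ≤ j
      · exact H_disj (by omega) hi hj
      · exact H_disj (by omega) hj hi
    have hcol : ∀ k, ∀ q ∈ colSet x k J, x < q := by
      intro k q hq
      obtain ⟨i, -, hi⟩ := mem_colSet.mp hq
      exact lt_of_le_of_lt (hxk _) (mem_H.mp hi).1.1
    have hnear : ∀ k y, y = 2 ^ k * x → ∀ q ∈ colSet x k J,
        ‖vq r q - ((q : ℝ) ^ (-r) : ℝ) * uu y‖ ≤ (q : ℝ) ^ (-r) / 4 := by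
      intro k y hy q hq
      obtain ⟨i, -, hi⟩ := mem_colSet.mp hq
      have e1 : 2 ^ (80 * i + k) * x = 2 ^ (80 * i) * y := by
        rw [hy, pow_add, mul_assoc]
      rw [e1] at hi
      have hy16 : 16 ≤ 2 ^ (80 * i) * y := by
        rw [← e1]; exact hx16.trans (hxk _)
      have := near hr.le hy16 hi
      rwa [uu_full (by rw [hy]; have := hxk k; omega)] at this
    have hpos : ∀ k, ∀ q ∈ colSet x k J, 0 < (q : ℝ) ^ (-r) ∧ (q : ℝ) ^ (-r) ≤ (x : ℝ) ^ (-r) :=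
      fun k q hq => a_le (by linarith) (by omega) (hcol k q hq).le
    obtain ⟨y, hy⟩ : ∃ y, y = 2 ^ 2 * x := ⟨_, rfl⟩
    have huy : uu (2 ^ 22 * x) = I * uu y := by
      have e : 2 ^ 22 * x = 2 ^ 20 * (2 ^ 2 * x) := by
        rw [← mul_assoc, ← pow_add]
      rw [e, ← hy, uu_quarter (by omega)]
    obtain ⟨R1, h1, h2⟩ := steer (v := vq r) (a := fun q => (q : ℝ) ^ (-r)) hdisj
      (s := (x : ℝ) ^ (-r)) (u := uu y) (norm_uu _) w
      (fun q hq => ⟨(hpos 2 q hq).1, (hpos 2 q hq).2, hnear 2 y hy q hq⟩)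
      (fun q hq => ⟨(hpos 22 q hq).1, (hpos 22 q hq).2, by
        rw [← huy]; exact hnear 22 _ rfl q hq⟩)
      (by
        have := sum_colSet (y := x) (k := 2) (J := J) hY2 hY1 hr hr1
        linarith)
      (by
        have := sum_colSet (y := x) (k := 22) (J := J) hY2 hY.ge hr hr1
        linarith)
    have hA : 0 < (x : ℝ) ^ (-r) := by
      have : (0 : ℝ) < x := by exact_mod_cast (by omega : 0 < x)
      positivity
    obtain ⟨K, hK⟩ := small_end hr.le (y := x) (by omega) hε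
    obtain ⟨R', h3, h4⟩ := chain hn₂ hr.le hr2 (y := x) hx2 hx16 (R := R1)
      (h1.trans (by nlinarith)) K
    obtain ⟨P, N, hP, hN, -, he⟩ := h2.trans h4 (by
      rw [Finset.disjoint_left]
      intro q hq1 hq2
      obtain ⟨j, -, hj⟩ := mem_chainSet.mp hq2
      rw [Finset.mem_union] at hq1
      rcases hq1 with hq1 | hq1 <;> obtain ⟨i, -, hi⟩ := mem_colSet.mp hq1 <;>
        rcases hj with hj | hj <;> by_cases hij : j ≤ i
      · exact H_disj (by omega) hj hi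
      · exact H_disj (by omega) hi hj
      · by_cases hij' : j = i
        · exact H_disj (by omega) hi hj
        · exact H_disj (by omega) hj hi
      · exact H_disj (by omega) hi hj
      · exact H_disj (by omega) hj hi
      · exact H_disj (by omega) hi hj
      · exact H_disj (by omega) hj hi
      · exact H_disj (by omega) hi hj)
    have hmem : ∀ q ∈ (colSet x 2 J ∪ colSet x 22 J) ∪ chainSet x K, q.Prime ∧ p < q := by
      intro q hq
      have : q.Prime ∧ x < q := by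
        rw [Finset.mem_union, Finset.mem_union] at hq
        rcases hq with (hq | hq) | hq
        · obtain ⟨i, -, hi⟩ := mem_colSet.mp hq
          exact ⟨(mem_H.mp hi).2, hcol _ q hq⟩
        · obtain ⟨i, -, hi⟩ := mem_colSet.mp hq
          exact ⟨(mem_H.mp hi).2, hcol _ q hq⟩
        · obtain ⟨j, -, hq⟩ := mem_chainSet.mp hq
          rcases hq with hq | hq <;> rw [mem_H] at hq <;>
            exact ⟨hq.2, lt_of_le_of_lt (hxk _) hq.1.1⟩
      exact ⟨this.1, hpx.trans this.2⟩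
    refine ⟨P, N, fun q hq => hmem q (hP hq), fun q hq => hmem q (hN hq), ?_⟩
    rw [← he]
    exact h3.trans_lt hK

end R464.DC
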