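import Mathlib

/-!
# Primes in `(n, 4n]`
-/

set_option autoImplicit false

open Finset Filter Topology

namespace R464.DC

/-- The primes in `(n, 4n]`. -/
def H (n : ℕ) : Finset ℕ := (Ioc n (4 * n)).filter Nat.Prime

theorem mem_H {n q : ℕ} : q ∈ H n ↔ (n < q ∧ q ≤ 4 * n) ∧ q.Prime := by
  simp [H]

theorem log_small {δ : ℝ} (hδ : 0 < δ) : ∀ᶠ x : ℝ in atTop, Real.log x ≤ δ * x := by
  filter_upwards [Real.isLittleO_log_id_atTop.bound hδ, eventually_ge_atTop 1] with x hx h1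
  simp only [id, Real.norm_eq_abs] at hx
  rw [abs_of_nonneg (Real.log_nonneg h1), abs_of_nonneg (by linarith)] at hx
  exact hx

theorem sum_log_H (n : ℕ) :
    Chebyshev.theta ((4 * n : ℕ) : ℝ) - Chebyshev.theta (n : ℝ) = ∑ q ∈ H n, Real.log q := by
  rw [Chebyshev.theta_eq_sum_Icc, Chebyshev.theta_eq_sum_Icc]
  simp only [Nat.floor_natCast]
  have : (Icc 0 (4 * n)).filter Nat.Prime = (Icc 0 n).filter Nat.Prime ∪ H n := by
    ext q
    simp only [mem_union, mem_filter, mem_Icc, mem_H]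
    constructor
    · rintro ⟨⟨-, h1⟩, h2⟩
      by_cases h : q ≤ n
      · exact Or.inl ⟨⟨Nat.zero_le _, h⟩, h2⟩
      · exact Or.inr ⟨⟨by omega, h1⟩, h2⟩
    · rintro (⟨⟨-, h1⟩, h2⟩ | ⟨⟨h1, h3⟩, h2⟩)
      · exact ⟨⟨Nat.zero_le _, by omega⟩, h2⟩
      · exact ⟨⟨Nat.zero_le _, h3⟩, h2⟩
  rw [this, sum_union, add_sub_cancel_left]
  rw [disjoint_left]
  intro q h1 h2
  simp only [mem_filter, mem_Icc, mem_H] at h1 h2
  omega

theorem card_H : ∀ᶠ n : ℕ in atTop,
    (n : ℝ) * Real.log 2 ≤ (H n).card * Real.log (4 * n) := by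
  have e1 := (tendsto_natCast_atTop_atTop (R := ℝ)).eventually
    ((tendsto_id.const_mul_atTop (show (0 : ℝ) < 4 by norm_num)).eventually
      ((Real.tendsto_sqrt_atTop).eventually (log_small (show (0 : ℝ) < 1 / 100 by norm_num))))
  have e2 := (tendsto_natCast_atTop_atTop (R := ℝ)).eventually
    ((tendsto_id.const_mul_atTop (show (0 : ℝ) < 4 by norm_num)).eventually
      ((tendsto_id.atTop_add (tendsto_const_nhds (x := (1 : ℝ)))).eventually
        (log_small (show (0 : ℝ) < 1 / 100 by norm_num))))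
  filter_upwards [e1, e2, eventually_ge_atTop 100] with n h1 h2 h3
  simp only [id] at h1 h2
  have hn : (100 : ℝ) ≤ n := by exact_mod_cast h3
  have h4 := Chebyshev.theta_ge (4 * n)
  have h5 := Chebyshev.theta_le_log4_mul_x (x := (n : ℝ)) (by positivity)
  have h6 := sum_log_H n
  have h7 : ∑ q ∈ H n, Real.log q ≤ (H n).card * Real.log (4 * n) := by
    rw [← nsmul_eq_mul]
    refine sum_le_card_nsmul _ _ _ fun q hq => ?_
    rw [mem_H] at hq
    have : (q : ℝ) ≤ 4 * n := by exact_mod_cast hq.1.2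
    exact Real.log_le_log (by exact_mod_cast hq.2.pos) this
  push_cast at h4 h6
  have h8 : Real.log (4 * n) ≤ 2 / 100 * √(4 * n) := by
    rw [Real.log_sqrt (by positivity)] at h1
    linarith
  have h9 : √(4 * (n : ℝ)) * √(4 * n) = 4 * n := Real.mul_self_sqrt (by positivity)
  have h10 : √(4 * (n : ℝ)) * Real.log (4 * n) ≤ √(4 * (n : ℝ)) * (2 / 100 * √(4 * n)) :=
    mul_le_mul_of_nonneg_left h8 (Real.sqrt_nonneg _)
  have h11 : √(4 * (n : ℝ)) * Real.log (4 * n) ≤ 8 / 100 * n := by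
    calc _ ≤ _ := h10
      _ = 2 / 100 * (√(4 * (n : ℝ)) * √(4 * n)) := by ring
      _ = _ := by rw [h9]; ring
  have h12 : Real.log 4 = 2 * Real.log 2 := by
    rw [show (4 : ℝ) = 2 ^ 2 by norm_num, Real.log_pow]; norm_num
  have h13 := Real.log_two_gt_d9
  rw [h12] at h5
  have h14 : (n : ℝ) * 0.69 ≤ n * Real.log 2 := mul_le_mul_of_nonneg_left (by linarith) (by linarith)
  linarith

theorem card_H_ge (K : ℕ) : ∀ᶠ n : ℕ in atTop, K ≤ (H n).card := by
  have hK : (0 : ℝ) < (1 / 8) / (K + 1) := by positivity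
  have e1 := (tendsto_natCast_atTop_atTop (R := ℝ)).eventually
    ((tendsto_id.const_mul_atTop (show (0 : ℝ) < 4 by norm_num)).eventually (log_small hK))
  filter_upwards [card_H, e1, eventually_ge_atTop 100] with n h1 h2 h3
  simp only [id] at h2
  have hn : (100 : ℝ) ≤ n := by exact_mod_cast h3
  by_contra hlt
  push Not at hlt
  have h4 : ((H n).card : ℝ) ≤ K := by exact_mod_cast hlt.le
  have h5 : 0 ≤ Real.log (4 * n) := Real.log_nonneg (by linarith)
  have h6 : (n : ℝ) * Real.log 2 ≤ K * (1 / 8 / (K + 1) * (4 * n)) :=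
    h1.trans ((mul_le_mul_of_nonneg_right h4 h5).trans
      (mul_le_mul_of_nonneg_left h2 (by positivity)))
  have h7 : (K : ℝ) * (1 / 8 / (K + 1) * (4 * n)) ≤ n / 2 := by
    have : (K : ℝ) * (1 / 8 / (K + 1) * (4 * n)) = (K / (K + 1)) * (n / 2) := by
      field_simp; ring
    rw [this]
    have : (K : ℝ) / (K + 1) ≤ 1 := (div_le_one (by positivity)).mpr (by linarith)
    nlinarith
  have h13 := Real.log_two_gt_d9
  nlinarith

theorem sum_H_ge {n : ℕ} {r : ℝ} (hr : 0 ≤ r) :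
    (H n).card * ((4 * n : ℕ) : ℝ) ^ (-r) ≤ ∑ q ∈ H n, (q : ℝ) ^ (-r) := by
  rw [← nsmul_eq_mul]
  refine card_nsmul_le_sum _ _ _ fun q hq => ?_
  rw [mem_H] at hq
  refine Real.rpow_le_rpow_of_nonpos ?_ (by exact_mod_cast hq.1.2) (by linarith)
  exact_mod_cast hq.2.pos

theorem H_disj {y a b q : ℕ} (hab : a + 2 ≤ b) (h1 : q ∈ H (2 ^ a * y)) (h2 : q ∈ H (2 ^ b * y)) :
    False := by
  rw [mem_H] at h1 h2
  have h3 : 2 ^ (a + 2) ≤ 2 ^ b := Nat.pow_le_pow_right (by norm_num) hab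
  have h4 : 2 ^ (a + 2) * y ≤ 2 ^ b * y := Nat.mul_le_mul_right _ h3
  have h5 : 4 * (2 ^ a * y) = 2 ^ (a + 2) * y := by rw [pow_add]; ring
  omega

/-- The sums over the blocks diverge. -/
theorem sum_blocks {n₀ : ℕ} (hn₀ : ∀ n, n₀ ≤ n → (n : ℝ) * Real.log 2 ≤
    (H n).card * Real.log (4 * n)) {y : ℕ} (hy : n₀ ≤ y) (hy1 : 1 ≤ y) :
    Tendsto (fun J => ∑ j ∈ range J, ∑ q ∈ H (2 ^ (80 * j) * y), (1 : ℝ) / q) atTop atTop := by
  set c : ℝ := Real.log (4 * y) + 80 * Real.log 2 with hc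
  have hl2 : 0 < Real.log 2 := Real.log_pos (by norm_num)
  have hy1' : (1 : ℝ) ≤ y := by exact_mod_cast hy1
  have hly : 0 < Real.log (4 * y) := Real.log_pos (by linarith)
  have hc0 : 0 < c := by positivity
  have key : ∀ j : ℕ, Real.log 2 / (4 * c) * (1 / ((j : ℝ) + 1)) ≤
      ∑ q ∈ H (2 ^ (80 * j) * y), (1 : ℝ) / q := by
    intro j
    set n : ℕ := 2 ^ (80 * j) * y with hn
    have hny : y ≤ n := by
      rw [hn]; exact Nat.le_mul_of_pos_left _ (by positivity)
    have h1 := hn₀ n (hy.trans hny)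
    have h2 : (H n).card * (1 / (4 * (n : ℝ))) ≤ ∑ q ∈ H n, (1 : ℝ) / q := by
      rw [← nsmul_eq_mul]
      refine card_nsmul_le_sum _ _ _ fun q hq => ?_
      rw [mem_H] at hq
      refine one_div_le_one_div_of_le (by exact_mod_cast hq.2.pos) (by exact_mod_cast hq.1.2)
    refine le_trans ?_ h2
    have hn1 : (1 : ℝ) ≤ n := by exact_mod_cast hy1.trans hny
    have h3 : Real.log (4 * n) ≤ c * (j + 1) := by
      rw [hn]
      push_cast
      rw [show (4 : ℝ) * (2 ^ (80 * j) * y) = 2 ^ (80 * j) * (4 * y) by ring,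
        Real.log_mul (by positivity) (by positivity), Real.log_pow]
      push_cast
      rw [hc]
      nlinarith [mul_nonneg hly.le (Nat.cast_nonneg (α := ℝ) j)]
    have hlog : 0 < Real.log (4 * n) := Real.log_pos (by linarith)
    have h4 : Real.log 2 / (4 * c) * (1 / ((j : ℝ) + 1)) ≤ Real.log 2 / (4 * Real.log (4 * n)) := by
      rw [div_mul_div_comm, mul_one]
      refine div_le_div_of_nonneg_left hl2.le (by positivity) ?_
      nlinarith
    refine h4.trans ?_
    rw [div_le_iff₀ (by positivity), mul_one_div, div_mul_eq_mul_div, le_div_iff₀ (by positivity)]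
    nlinarith
  refine tendsto_atTop_mono (fun J => sum_le_sum fun j _ => key j) ?_
  simp_rw [← mul_sum]
  exact Real.tendsto_sum_range_one_div_nat_succ_atTop.const_mul_atTop (by positivity)

end R464.DC
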