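import Pool.Agent.R464.DC.Steer
import Pool.Agent.R464.DC.Primes

/-!
# Approximating complex numbers by signed sums of `log (1 + q^c)`
-/

set_option autoImplicit false

open Finset Filter Topology Complex

namespace R464.DC

/-- The imaginary part of the exponent. -/
noncomputable def tt : ℝ := Real.pi / (40 * Real.log 2)

/-- The exponent. -/
noncomputable def cc (r : ℝ) : ℂ := -r + tt * I

/-- The vectors. -/
noncomputable def vq (r : ℝ) (q : ℕ) : ℂ := Complex.log (1 + (q : ℂ) ^ cc r)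

/-- The directions. -/
noncomputable def uu (y : ℕ) : ℂ := Complex.exp (I * (tt * Real.log y : ℝ))

theorem log_two_pos : 0 < Real.log 2 := Real.log_pos (by norm_num)

theorem tt_pos : 0 < tt := by
  have := log_two_pos
  have := Real.pi_pos
  unfold tt; positivity

theorem cpow_eq {r : ℝ} {q : ℕ} (hq : 0 < q) :
    (q : ℂ) ^ cc r = ((q : ℝ) ^ (-r) : ℝ) * uu q := by
  have hq' : (q : ℂ) ≠ 0 := by exact_mod_cast hq.ne'
  rw [Complex.cpow_def_of_ne_zero hq', Real.rpow_def_of_pos (by exact_mod_cast hq), uu,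
    Complex.ofReal_exp, ← Complex.exp_add, ← Complex.natCast_log, cc]
  congr 1
  push_cast
  ring

theorem norm_uu (y : ℕ) : ‖uu y‖ = 1 := Complex.norm_exp_I_mul_ofReal _

theorem norm_cpow {r : ℝ} {q : ℕ} (hq : 0 < q) : ‖(q : ℂ) ^ cc r‖ = (q : ℝ) ^ (-r) := by
  rw [cpow_eq hq, norm_mul, norm_uu, mul_one, Complex.norm_real, Real.norm_eq_abs,
    abs_of_nonneg (by positivity)]

theorem uu_full {j y : ℕ} (hy : 0 < y) : uu (2 ^ (80 * j) * y) = uu y := by
  unfold uu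
  have : tt * Real.log ((2 ^ (80 * j) * y : ℕ) : ℝ) = j * (2 * Real.pi) + tt * Real.log y := by
    push_cast
    rw [Real.log_mul (by positivity) (by positivity), Real.log_pow, tt]
    have := log_two_pos
    push_cast
    field_simp
    ring
  rw [this]
  push_cast
  rw [mul_add, Complex.exp_add, show I * ((j : ℂ) * (2 * (Real.pi : ℂ))) = j * (2 * Real.pi * I) by ring,
    Complex.exp_nat_mul_two_pi_mul_I, one_mul]

theorem uu_quarter {y : ℕ} (hy : 0 < y) : uu (2 ^ 20 * y) = I * uu y := by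
  unfold uu
  have : tt * Real.log ((2 ^ 20 * y : ℕ) : ℝ) = Real.pi / 2 + tt * Real.log y := by
    rw [Nat.cast_mul, Nat.cast_pow, Nat.cast_ofNat]
    rw [Real.log_mul (by positivity) (by positivity), Real.log_pow, tt]
    have := log_two_pos
    push_cast
    field_simp
    ring
  rw [this]
  push_cast
  rw [mul_add, Complex.exp_add, show I * ((Real.pi : ℂ) / 2) = Real.pi / 2 * I by ring,
    Complex.exp_pi_div_two_mul_I]

theorem near {r : ℝ} (hr : 1 ≤ r) {y q : ℕ} (hy : 16 ≤ y) (hq : q ∈ H y) :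
    ‖vq r q - ((q : ℝ) ^ (-r) : ℝ) * uu y‖ ≤ (q : ℝ) ^ (-r) / 4 := by
  rw [mem_H] at hq
  have hq0 : 0 < q := hq.2.pos
  have hqr : (16 : ℝ) ≤ q := by exact_mod_cast hy.trans hq.1.1.le
  have hyr : (16 : ℝ) ≤ y := by exact_mod_cast hy
  set a : ℝ := (q : ℝ) ^ (-r) with ha
  have ha0 : 0 < a := by positivity
  have ha1 : a ≤ 1 / 16 := by
    calc a ≤ (q : ℝ) ^ (-1 : ℝ) := Real.rpow_le_rpow_of_exponent_le (by linarith) (by linarith)
      _ = (q : ℝ)⁻¹ := Real.rpow_neg_one _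
      _ ≤ (16 : ℝ)⁻¹ := inv_anti₀ (by norm_num) hqr
      _ = 1 / 16 := by norm_num
  set z : ℂ := (q : ℂ) ^ cc r with hz
  have hza : ‖z‖ = a := norm_cpow hq0
  have hz2 : z = a * uu q := cpow_eq hq0
  have h1 : ‖Complex.log (1 + z) - z‖ ≤ a / 30 := by
    refine (Complex.norm_log_one_add_sub_self_le (by rw [hza]; linarith)).trans ?_
    rw [hza]
    have : (1 - a)⁻¹ ≤ 16 / 15 := by
      rw [inv_le_comm₀ (by linarith) (by norm_num)]
      norm_num; linarith
    have h2 : a ^ 2 ≤ a * (1 / 16) := by rw [sq]; exact mul_le_mul_of_nonneg_left ha1 ha0.le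
    calc a ^ 2 * (1 - a)⁻¹ / 2 ≤ (a * (1 / 16)) * (16 / 15) / 2 := by
          have : 0 ≤ (1 - a)⁻¹ := inv_nonneg.mpr (by linarith)
          gcongr
      _ = a / 30 := by ring
  have h2 : ‖uu q - uu y‖ ≤ Real.pi / 20 := by
    have e1 : uu q = uu y * Complex.exp (I * (tt * Real.log q - tt * Real.log y : ℝ)) := by
      unfold uu
      rw [← Complex.exp_add]
      congr 1
      push_cast
      ring
    have e2 : uu q - uu y = uu y * (Complex.exp (I * (tt * Real.log q - tt * Real.log y : ℝ)) - 1) := by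
      rw [e1]; ring
    rw [e2, norm_mul, norm_uu, one_mul]
    refine Real.norm_exp_I_mul_ofReal_sub_one_le.trans ?_
    rw [Real.norm_eq_abs, abs_of_nonneg, ← mul_sub, ← Real.log_div (by positivity) (by positivity)]
    · have e3 : Real.log ((q : ℝ) / y) ≤ Real.log 4 := by
        refine Real.log_le_log (by positivity) ?_
        rw [div_le_iff₀ (by positivity)]
        exact_mod_cast hq.1.2
      have e4 : Real.log 4 = 2 * Real.log 2 := by
        rw [show (4 : ℝ) = 2 ^ 2 by norm_num, Real.log_pow]; norm_num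
      calc tt * Real.log ((q : ℝ) / y) ≤ tt * Real.log 4 := mul_le_mul_of_nonneg_left e3 tt_pos.le
        _ = Real.pi / 20 := by
          rw [e4, tt]
          have := log_two_pos
          field_simp
          ring
    · have : Real.log y ≤ Real.log q := Real.log_le_log (by positivity) (by exact_mod_cast hq.1.1.le)
      nlinarith [tt_pos]
  have h3 : vq r q - a * uu y = (Complex.log (1 + z) - z) + a * (uu q - uu y) := by
    rw [vq, ← hz, hz2]; ring
  rw [h3]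
  refine (norm_add_le _ _).trans ?_
  rw [norm_mul, Complex.norm_real, Real.norm_eq_abs, abs_of_pos ha0]
  have h4 : a * ‖uu q - uu y‖ ≤ a * (Real.pi / 20) := mul_le_mul_of_nonneg_left h2 ha0.le
  have h5 := Real.pi_lt_d2
  have h6 : a * (Real.pi / 20) ≤ a * (3.15 / 20) := mul_le_mul_of_nonneg_left (by linarith) ha0.le
  linarith

theorem a_le {r : ℝ} (hr : 0 ≤ r) {y q : ℕ} (hy : 1 ≤ y) (hyq : y ≤ q) :
    0 < (q : ℝ) ^ (-r) ∧ (q : ℝ) ^ (-r) ≤ (y : ℝ) ^ (-r) := by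
  have h1 : (1 : ℝ) ≤ y := by exact_mod_cast hy
  have h2 : (y : ℝ) ≤ q := by exact_mod_cast hyq
  exact ⟨Real.rpow_pos_of_pos (by linarith) _,
    Real.rpow_le_rpow_of_nonpos (by linarith) h2 (by linarith)⟩

/-- The constant. -/
def CC : ℕ := 4 * 2 ^ 160

theorem two_pow_rpow {r : ℝ} (hr2 : r ≤ 2) (k y : ℕ) (hy : 1 ≤ y) :
    (y : ℝ) ^ (-r) ≤ 2 ^ (2 * k) * ((2 ^ k * y : ℕ) : ℝ) ^ (-r) := by
  have hy' : (0 : ℝ) < y := by exact_mod_cast hy
  push_cast
  rw [Real.mul_rpow (by positivity) (by positivity), ← mul_assoc]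
  have h1 : (1 : ℝ) ≤ 2 ^ (2 * k) * (2 ^ k) ^ (-r) := by
    rw [← Real.rpow_natCast, ← Real.rpow_natCast, ← Real.rpow_mul (by norm_num),
      ← Real.rpow_add (by norm_num)]
    refine Real.one_le_rpow (by norm_num) ?_
    push_cast
    have : (0 : ℝ) ≤ k := by positivity
    nlinarith
  have h2 : 0 ≤ (y : ℝ) ^ (-r) := by positivity
  nlinarith

theorem pow_disj {y a b : ℕ} (hab : a + 2 ≤ b ∨ b + 2 ≤ a) :
    Disjoint (H (2 ^ a * y)) (H (2 ^ b * y)) := by
  rw [Finset.disjoint_left]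
  intro q h1 h2
  rcases hab with h | h
  · exact H_disj h h1 h2
  · exact H_disj h h2 h1

/-- One block. -/
theorem block {n₀ : ℕ} (hn₀ : ∀ n, n₀ ≤ n → 2 ^ 210 ≤ (H n).card) {r : ℝ} (hr : 1 ≤ r)
    (hr2 : r ≤ 2) {y : ℕ} (hy : n₀ ≤ y) (hy16 : 16 ≤ y) {R : ℂ}
    (hR : ‖R‖ ≤ CC * (y : ℝ) ^ (-r)) :
    ∃ R', ‖R'‖ ≤ CC * ((2 ^ 80 * y : ℕ) : ℝ) ^ (-r) ∧
      Reach (vq r) (H y ∪ H (2 ^ 20 * y)) R R' := by
  have hy1 : 1 ≤ y := by omega
  have hyr : (1 : ℝ) ≤ y := by exact_mod_cast hy1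
  have hA : 0 < (y : ℝ) ^ (-r) := by positivity
  have hmass : ∀ k, k ≤ 20 → 8 * ‖R‖ < ∑ q ∈ H (2 ^ k * y), (q : ℝ) ^ (-r) := by
    intro k hk
    have hky : y ≤ 2 ^ k * y := Nat.le_mul_of_pos_left _ (by positivity)
    have h1 := sum_H_ge (n := 2 ^ k * y) (r := r) (by linarith)
    have h2 : ((2 : ℝ) ^ 210) ≤ (H (2 ^ k * y)).card := by
      exact_mod_cast hn₀ (2 ^ k * y) (hy.trans hky)
    have h3 := two_pow_rpow hr2 (k + 2) y hy1
    have h4 : 4 * (2 ^ k * y) = 2 ^ (k + 2) * y := by rw [pow_add]; ring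
    rw [h4] at h1
    have h5 : (2 : ℝ) ^ (2 * (k + 2)) ≤ 2 ^ 44 := pow_le_pow_right₀ (by norm_num) (by omega)
    set B : ℝ := ((2 ^ (k + 2) * y : ℕ) : ℝ) ^ (-r) with hB
    have hB0 : 0 < B := by positivity
    have h6 : (y : ℝ) ^ (-r) ≤ 2 ^ 44 * B := h3.trans (mul_le_mul_of_nonneg_right h5 hB0.le)
    have h7 : (2 : ℝ) ^ 210 * B ≤ (H (2 ^ k * y)).card * B := mul_le_mul_of_nonneg_right h2 hB0.le
    have h8 : 8 * ‖R‖ ≤ 8 * (CC * (2 ^ 44 * B)) := by
      have : (CC : ℝ) * (y : ℝ) ^ (-r) ≤ CC * (2 ^ 44 * B) :=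
        mul_le_mul_of_nonneg_left h6 (by positivity)
      linarith
    have h9 : 8 * ((CC : ℝ) * (2 ^ 44 * B)) < 2 ^ 210 * B := by
      unfold CC
      push_cast
      have : (8 : ℝ) * (4 * 2 ^ 160 * 2 ^ 44) < 2 ^ 210 := by norm_num
      nlinarith
    linarith
  have hdisj : Disjoint (H y) (H (2 ^ 20 * y)) := by
    have := pow_disj (y := y) (a := 0) (b := 20) (Or.inl (by norm_num))
    simpa using this
  obtain ⟨R', h1, h2⟩ := steer (v := vq r) (a := fun q => (q : ℝ) ^ (-r)) hdisj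
    (s := (y : ℝ) ^ (-r)) (u := uu y) (norm_uu y) R
    (fun q hq => ⟨(a_le (by linarith) hy1 (mem_H.mp hq).1.1.le).1,
      (a_le (by linarith) hy1 (mem_H.mp hq).1.1.le).2, near hr hy16 hq⟩)
    (fun q hq => by
      have hyq : y ≤ q := by
        have := (mem_H.mp hq).1.1
        omega
      refine ⟨(a_le (by linarith) hy1 hyq).1, (a_le (by linarith) hy1 hyq).2, ?_⟩
      rw [← uu_quarter (by omega)]
      exact near hr (by omega) hq)
    (by simpa using hmass 0 (by norm_num)) (hmass 20 le_rfl)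
  refine ⟨R', h1.trans ?_, h2⟩
  have h3 := two_pow_rpow hr2 80 y hy1
  unfold CC
  push_cast at h3 ⊢
  linarith

/-- The primes used in the chain. -/
def chainSet (y J : ℕ) : Finset ℕ :=
  (range J).biUnion fun j => H (2 ^ (80 * j) * y) ∪ H (2 ^ (80 * j + 20) * y)

theorem mem_chainSet {y J q : ℕ} : q ∈ chainSet y J ↔
    ∃ j < J, q ∈ H (2 ^ (80 * j) * y) ∨ q ∈ H (2 ^ (80 * j + 20) * y) := by
  simp [chainSet]

theorem chain {n₀ : ℕ} (hn₀ : ∀ n, n₀ ≤ n → 2 ^ 210 ≤ (H n).card) {r : ℝ} (hr : 1 ≤ r)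
    (hr2 : r ≤ 2) {y : ℕ} (hy : n₀ ≤ y) (hy16 : 16 ≤ y) {R : ℂ}
    (hR : ‖R‖ ≤ CC * (y : ℝ) ^ (-r)) (J : ℕ) :
    ∃ R', ‖R'‖ ≤ CC * ((2 ^ (80 * J) * y : ℕ) : ℝ) ^ (-r) ∧
      Reach (vq r) (chainSet y J) R R' := by
  induction J with
  | zero => exact ⟨R, by simpa using hR, Reach.refl _ _ _⟩
  | succ J ih =>
    obtain ⟨R', h1, h2⟩ := ih
    have hle : y ≤ 2 ^ (80 * J) * y := Nat.le_mul_of_pos_left _ (by positivity)
    obtain ⟨R'', h3, h4⟩ := block hn₀ hr hr2 (y := 2 ^ (80 * J) * y) (hy.trans hle)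
      (hy16.trans hle) h1
    refine ⟨R'', ?_, ?_⟩
    · have : 2 ^ 80 * (2 ^ (80 * J) * y) = 2 ^ (80 * (J + 1)) * y := by
        rw [← mul_assoc, ← pow_add]; congr 2; ring
      rwa [this] at h3
    · have h5 : 2 ^ 20 * (2 ^ (80 * J) * y) = 2 ^ (80 * J + 20) * y := by
        rw [← mul_assoc, ← pow_add]; congr 2; ring
      rw [h5] at h4
      have h6 : chainSet y (J + 1) =
          chainSet y J ∪ (H (2 ^ (80 * J) * y) ∪ H (2 ^ (80 * J + 20) * y)) := by
        ext q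
        rw [Finset.mem_union, mem_chainSet, mem_chainSet, Finset.mem_union]
        constructor
        · rintro ⟨j, hj, hq⟩
          rcases Nat.lt_succ_iff_lt_or_eq.mp hj with h | rfl
          · exact Or.inl ⟨j, h, hq⟩
          · exact Or.inr hq
        · rintro (⟨j, hj, hq⟩ | hq)
          · exact ⟨j, by omega, hq⟩
          · exact ⟨J, by omega, hq⟩
      rw [h6]
      refine h2.trans h4 ?_
      rw [Finset.disjoint_left]
      intro q hq1 hq2
      rw [mem_chainSet] at hq1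
      obtain ⟨j, hj, hq1⟩ := hq1
      rw [Finset.mem_union] at hq2
      rcases hq1 with hq1 | hq1 <;> rcases hq2 with hq2 | hq2 <;>
        exact H_disj (by omega) hq1 hq2

end R464.DC
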