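import Pool.Agent.R464.DC.All

/-!
# The divisor function with a complex exponent and the colouring argument
-/

set_option autoImplicit false

open Finset Filter Topology

namespace R464.DC

/-- The divisor function. -/
noncomputable def sig (c : ℂ) (n : ℕ) : ℂ := ∑ d ∈ n.divisors, (d : ℂ) ^ c

theorem sig_one (c : ℂ) : sig c 1 = 1 := by simp [sig]

theorem sig_mul {c : ℂ} {m n : ℕ} (h : m.Coprime n) : sig c (m * n) = sig c m * sig c n := by
  unfold sig
  rw [h.divisors_mul, sum_map, sum_mul_sum, ← sum_product', ← sum_attach (m.divisors ×ˢ n.divisors)]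
  refine sum_congr rfl fun p _ => ?_
  change ((p.1.1 * p.1.2 : ℕ) : ℂ) ^ c = (p.1.1 : ℂ) ^ c * (p.1.2 : ℂ) ^ c
  rw [Nat.cast_mul]
  exact Complex.natCast_mul_natCast_cpow _ _ _

theorem sig_prime {c : ℂ} {p : ℕ} (hp : p.Prime) : sig c p = 1 + (p : ℂ) ^ c := by
  rw [sig, hp.divisors, sum_pair hp.one_lt.ne]
  simp

theorem sig_prime_pow {c : ℂ} {p : ℕ} (hp : p.Prime) (a : ℕ) :
    sig c (p ^ a) = ∑ i ∈ range (a + 1), ((p : ℂ) ^ c) ^ i := by
  rw [sig, Nat.divisors_prime_pow hp, sum_map]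
  refine sum_congr rfl fun i _ => ?_
  simp only [Function.Embedding.coeFn_mk, Nat.cast_pow]
  rw [← Complex.natCast_cpow_natCast_mul, Complex.cpow_nat_mul]

theorem summable_pow {r : ℝ} (hr : 1 < r) : Summable fun n : ℕ => (n : ℝ) ^ (-r) :=
  Real.summable_nat_rpow.mpr (by linarith)

/-- The bound of the values. -/
noncomputable def Z (r : ℝ) : ℝ := ∑' n : ℕ, (n : ℝ) ^ (-r)

theorem Z_nonneg (r : ℝ) : 0 ≤ Z r := tsum_nonneg fun n => by positivity

theorem norm_sum_le' {r : ℝ} {s : Finset ℕ} (hs : ∀ d ∈ s, 0 < d) :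
    ‖∑ d ∈ s, (d : ℂ) ^ cc r‖ ≤ ∑ d ∈ s, (d : ℝ) ^ (-r) :=
  norm_sum_le_of_le _ fun d hd => (norm_cpow (hs d hd)).le

theorem norm_sig_le {r : ℝ} (hr : 1 < r) (n : ℕ) : ‖sig (cc r) n‖ ≤ Z r :=
  (norm_sum_le' fun _ hd => Nat.pos_of_mem_divisors hd).trans
    ((summable_pow hr).sum_le_tsum _ fun i _ => by positivity)

theorem tail {r : ℝ} (hr : 1 < r) {ε : ℝ} (hε : 0 < ε) :
    ∃ k : ℕ, ∀ n, n ≠ 0 → (∀ q, q.Prime → q ∣ n → k < q) → ‖sig (cc r) n - 1‖ < ε := by
  obtain ⟨s, hs⟩ := summable_iff_vanishing_norm.mp (summable_pow hr) ε hε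
  refine ⟨s.sup id, fun n hn h => ?_⟩
  have h1 : sig (cc r) n - 1 = ∑ d ∈ n.divisors.erase 1, (d : ℂ) ^ cc r := by
    rw [sig, ← add_sum_erase _ _ (Nat.one_mem_divisors.mpr hn)]
    simp
  rw [h1]
  refine (norm_sum_le' fun d hd => Nat.pos_of_mem_divisors (mem_of_mem_erase hd)).trans_lt ?_
  refine (Real.le_norm_self _).trans_lt (hs _ ?_)
  rw [disjoint_left]
  intro d hd hds
  rw [mem_erase, Nat.mem_divisors] at hd
  have h2 := h d.minFac (Nat.minFac_prime hd.1) ((Nat.minFac_dvd d).trans hd.2.1)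
  have h3 : d ≤ s.sup id := le_sup (f := id) hds
  have h4 : d.minFac ≤ d := Nat.minFac_le (Nat.pos_of_dvd_of_pos hd.2.1 (Nat.pos_of_ne_zero hd.2.2))
  omega

theorem norm_le_half {r : ℝ} (hr : 1 < r) {p : ℕ} (hp : p.Prime) :
    ‖(p : ℂ) ^ cc r‖ = (p : ℝ) ^ (-r) ∧ ‖(p : ℂ) ^ cc r‖ ≤ 1 / 2 := by
  have h1 := norm_cpow (r := r) hp.pos
  refine ⟨h1, ?_⟩
  rw [h1]
  have h2 : (2 : ℝ) ≤ p := by exact_mod_cast hp.two_le
  calc (p : ℝ) ^ (-r) ≤ (p : ℝ) ^ (-1 : ℝ) :=
        Real.rpow_le_rpow_of_exponent_le (by linarith) (by linarith)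
    _ = (p : ℝ)⁻¹ := Real.rpow_neg_one _
    _ ≤ (2 : ℝ)⁻¹ := inv_anti₀ (by norm_num) h2
    _ = 1 / 2 := by norm_num

theorem pow_ratio {r : ℝ} (hr : 1 < r) {p : ℕ} (hp : p.Prime) (a : ℕ) :
    ∃ w : ℂ, ‖w‖ ≤ 3 * (p : ℝ) ^ (-r) ∧
      Complex.exp w * sig (cc r) (p ^ a) = sig (cc r) (p ^ (a + 1)) := by
  obtain ⟨h1, h2⟩ := norm_le_half hr hp
  set z : ℂ := (p : ℂ) ^ cc r with hz
  have hpow : ∀ k, ‖-z ^ (k + 1)‖ ≤ ‖z‖ := by
    intro k
    rw [norm_neg, norm_pow, pow_succ]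
    have : ‖z‖ ^ k ≤ 1 := pow_le_one₀ (norm_nonneg _) (by linarith)
    nlinarith [norm_nonneg z]
  have hne : ∀ k, 1 + -z ^ (k + 1) ≠ 0 := by
    intro k h
    have h3 : z ^ (k + 1) = 1 := by linear_combination -h
    have h4 := hpow k
    rw [norm_neg, h3, norm_one] at h4
    linarith
  have hlog : ∀ k, ‖Complex.log (1 + -z ^ (k + 1))‖ ≤ 3 / 2 * ‖z‖ := by
    intro k
    refine (Complex.norm_log_one_add_half_le_self ((hpow k).trans h2)).trans ?_
    exact mul_le_mul_of_nonneg_left (hpow k) (by norm_num)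
  refine ⟨Complex.log (1 + -z ^ (a + 2)) - Complex.log (1 + -z ^ (a + 1)), ?_, ?_⟩
  · refine (norm_sub_le _ _).trans ?_
    have := hlog (a + 1)
    have := hlog a
    rw [← h1]
    linarith
  · rw [Complex.exp_sub, Complex.exp_log (hne (a + 1)), Complex.exp_log (hne a),
      sig_prime_pow hp, sig_prime_pow hp, ← hz]
    have e1 := geom_sum_mul z (a + 1)
    have e2 := geom_sum_mul z (a + 1 + 1)
    have hz1 : z - 1 ≠ 0 := by
      intro h
      have h3 : z = 1 := by linear_combination h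
      rw [h3, norm_one] at h2
      norm_num at h2
    have e3 := hne a
    rw [div_mul_eq_mul_div, div_eq_iff e3]
    apply mul_right_cancel₀ hz1
    rw [mul_assoc, e1]
    have : (∑ i ∈ range (a + 1 + 1), z ^ i) * (1 + -z ^ (a + 1)) * (z - 1) =
      ((∑ i ∈ range (a + 1 + 1), z ^ i) * (z - 1)) * (1 + -z ^ (a + 1)) := by ring
    rw [this, e2]
    ring

theorem coprime_of {m n : ℕ} (h : ∀ q, q.Prime → q ∣ m → ¬ q ∣ n) : m.Coprime n :=
  Nat.coprime_of_dvd h

theorem prod_eq {r : ℝ} (hr : 1 < r) (P : Finset ℕ) (hP : ∀ q ∈ P, q.Prime) :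
    sig (cc r) (∏ q ∈ P, q) = Complex.exp (∑ q ∈ P, vq r q) := by
  induction P using Finset.induction_on with
  | empty => simp [sig_one]
  | insert q P hq ih =>
    have hqp := hP q (mem_insert_self q P)
    rw [prod_insert hq, sum_insert hq, sig_mul, ih fun p hp => hP p (mem_insert_of_mem hp),
      Complex.exp_add, sig_prime hqp, vq, Complex.exp_log]
    · intro h
      have h2 := (norm_le_half hr hqp).2
      have h3 : (q : ℂ) ^ cc r = -1 := by linear_combination h
      rw [h3, norm_neg, norm_one] at h2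
      norm_num at h2
    · refine Nat.Coprime.prod_right fun p hp => ?_
      refine (Nat.coprime_primes hqp (hP p (mem_insert_of_mem hp))).mpr ?_
      rintro rfl; exact hq hp

theorem prime_dvd_prod {P : Finset ℕ} (hP : ∀ q ∈ P, q.Prime) {p : ℕ} (hp : p.Prime)
    (h : p ∣ ∏ q ∈ P, q) : p ∈ P := by
  obtain ⟨q, hq, hpq⟩ := (hp.prime.dvd_finsetProd_iff _).mp h
  rwa [(Nat.prime_dvd_prime_iff_eq hp (hP q hq)).mp hpq]

/-- The colouring argument. -/
theorem colour {r : ℝ} (hr : 1 < r) (hreach : ∀ p : ℕ, 1 ≤ p → ∀ w : ℂ,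
    ‖w‖ ≤ 3 * (p : ℝ) ^ (-r) → ∀ ε > 0, ∃ P N : Finset ℕ, (∀ q ∈ P, q.Prime ∧ p < q) ∧
      (∀ q ∈ N, q.Prime ∧ p < q) ∧ ‖w - (∑ q ∈ P, vq r q - ∑ q ∈ N, vq r q)‖ < ε)
    {g : ℕ → Prop} {ε : ℝ} (hε : 0 < ε)
    (hg : ∀ m n, m ≠ 0 → n ≠ 0 → ‖sig (cc r) m - sig (cc r) n‖ < ε → (g m ↔ g n)) :
    ∀ n, n ≠ 0 → (g n ↔ g 1) := by
  have hZ := Z_nonneg r
  let Good : ℕ → Prop := fun k => ∀ m n, m ≠ 0 → n ≠ 0 → (∀ q, q.Prime → q ∣ m → q ≤ k) →
    (∀ q, q.Prime → q ∣ n → k < q) → (g (m * n) ↔ g m)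
  have hstart : ∃ k, Good k := by
    obtain ⟨k, hk⟩ := tail hr (ε := ε / (Z r + 1)) (by positivity)
    refine ⟨k, fun m n hm hn h1 h2 => ?_⟩
    refine hg _ _ (mul_ne_zero hm hn) hm ?_
    have hmn : m.Coprime n := coprime_of fun q hq hqm hqn => by
      have := h1 q hq hqm
      have := h2 q hq hqn
      omega
    rw [sig_mul hmn, show sig (cc r) m * sig (cc r) n - sig (cc r) m =
      sig (cc r) m * (sig (cc r) n - 1) by ring, norm_mul]
    have h3 := hk n hn h2
    rw [lt_div_iff₀ (by positivity)] at h3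
    have h4 := norm_sig_le hr m
    nlinarith [norm_nonneg (sig (cc r) n - 1)]
  have hstep : ∀ k, Good (k + 1) → Good k := by
    intro k hk m n hm hn h1 h2
    by_cases hp : (k + 1).Prime
    · set p := k + 1 with hpk
      obtain ⟨a, n', hn', hnn'⟩ := Nat.exists_eq_pow_mul_and_not_dvd hn p hp.ne_one
      have hn'0 : n' ≠ 0 := by
        rintro rfl; simp at hn'
      have hm1 : ∀ a, ∀ q, q.Prime → q ∣ m * p ^ a → q ≤ p := by
        intro a q hq hqd
        rcases (hq.dvd_mul).mp hqd with h | h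
        · have := h1 q hq h; omega
        · exact ((Nat.prime_dvd_prime_iff_eq hq hp).mp (hq.dvd_of_dvd_pow h)).le
      have hm2 : ∀ a, m * p ^ a ≠ 0 := fun a => mul_ne_zero hm (pow_ne_zero _ hp.ne_zero)
      have hpa : ∀ a, g (m * p ^ a) ↔ g m := by
        intro a
        induction a with
        | zero => simp
        | succ a ih =>
          rw [← ih]
          obtain ⟨w, hw1, hw2⟩ := pow_ratio hr hp a
          obtain ⟨P, N, hP, hN, hPN⟩ := hreach p hp.one_lt.le w hw1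
            (min 1 (ε / (2 * (Z r + 1)))) (lt_min one_pos (by positivity))
          have hP0 : ∏ q ∈ P, q ≠ 0 := prod_ne_zero_iff.mpr fun q hq => (hP q hq).1.ne_zero
          have hN0 : ∏ q ∈ N, q ≠ 0 := prod_ne_zero_iff.mpr fun q hq => (hN q hq).1.ne_zero
          have g1 := hk (m * p ^ (a + 1)) (∏ q ∈ N, q) (hm2 _) hN0 (hm1 _)
            (fun q hq hqd => (hN q (prime_dvd_prod (fun q hq => (hN q hq).1) hq hqd)).2)
          have g2 := hk (m * p ^ a) (∏ q ∈ P, q) (hm2 _) hP0 (hm1 _)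
            (fun q hq hqd => (hP q (prime_dvd_prod (fun q hq => (hP q hq).1) hq hqd)).2)
          rw [← g1, ← g2]
          refine hg _ _ (mul_ne_zero (hm2 _) hN0) (mul_ne_zero (hm2 _) hP0) ?_
          have c1 : ∀ b, m.Coprime (p ^ b) := fun b => coprime_of fun q hq hqm hqn => by
            have := h1 q hq hqm
            have := (Nat.prime_dvd_prime_iff_eq hq hp).mp (hq.dvd_of_dvd_pow hqn)
            omega
          have c2 : ∀ b, (m * p ^ b).Coprime (∏ q ∈ N, q) := fun b =>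
            coprime_of fun q hq hqm hqn => by
              have := hm1 b q hq hqm
              have := (hN q (prime_dvd_prod (fun q hq => (hN q hq).1) hq hqn)).2
              omega
          have c3 : ∀ b, (m * p ^ b).Coprime (∏ q ∈ P, q) := fun b =>
            coprime_of fun q hq hqm hqn => by
              have := hm1 b q hq hqm
              have := (hP q (prime_dvd_prod (fun q hq => (hP q hq).1) hq hqn)).2
              omega
          set δ : ℂ := w - (∑ q ∈ P, vq r q - ∑ q ∈ N, vq r q) with hδ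
          have e1 : sig (cc r) (m * p ^ (a + 1) * ∏ q ∈ N, q) =
              sig (cc r) (m * p ^ a * ∏ q ∈ P, q) * Complex.exp δ := by
            rw [sig_mul (c2 _), sig_mul (c3 _), sig_mul (c1 _), sig_mul (c1 _), ← hw2,
              prod_eq hr N fun q hq => (hN q hq).1, prod_eq hr P fun q hq => (hP q hq).1]
            have : Complex.exp w * Complex.exp (∑ q ∈ N, vq r q) =
                Complex.exp (∑ q ∈ P, vq r q) * Complex.exp δ := by
              rw [← Complex.exp_add, ← Complex.exp_add, hδ]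
              congr 1; ring
            linear_combination (sig (cc r) m * sig (cc r) (p ^ a)) * this
          rw [e1, ← mul_sub_one, norm_mul]
          have h5 : ‖δ‖ ≤ 1 := (hPN.trans_le (min_le_left _ _)).le
          have h6 := Complex.norm_exp_sub_one_le h5
          have h7 : ‖δ‖ < ε / (2 * (Z r + 1)) := hPN.trans_le (min_le_right _ _)
          rw [lt_div_iff₀ (by positivity)] at h7
          have h8 := norm_sig_le hr (m * p ^ a * ∏ q ∈ P, q)
          have h9 : ‖sig (cc r) (m * p ^ a * ∏ q ∈ P, q)‖ * ‖Complex.exp δ - 1‖ ≤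
              Z r * (2 * ‖δ‖) := mul_le_mul h8 h6 (norm_nonneg _) hZ
          nlinarith [norm_nonneg δ]
      have g3 := hk (m * p ^ a) n' (hm2 _) hn'0 (hm1 _) (fun q hq hqd => by
        have h3 : q ∣ n := by rw [hnn']; exact hqd.mul_left _
        have h4 := h2 q hq h3
        have h5 : q ≠ p := by rintro rfl; exact hn' hqd
        omega)
      rw [hnn', ← mul_assoc, g3]
      exact hpa a
    · refine hk m n hm hn (fun q hq hqm => by have := h1 q hq hqm; omega) (fun q hq hqn => ?_)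
      have h3 := h2 q hq hqn
      have h4 : q ≠ k + 1 := by rintro rfl; exact hp hq
      omega
  obtain ⟨k, hk⟩ := hstart
  have hzero : Good 0 := by
    induction k with
    | zero => exact hk
    | succ k ih => exact ih (hstep k hk)
  intro n hn
  have := hzero 1 n one_ne_zero hn (fun q hq h => absurd (Nat.dvd_one.mp h) hq.ne_one)
    (fun q hq _ => hq.pos)
  rwa [one_mul] at this

/-- The connectedness of the closure. -/
theorem connected : ∃ r₀ : ℝ, 1 < r₀ ∧ ∀ r, 1 < r → r < r₀ →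
    IsPreconnected (closure (sig (cc r) '' {n | n ≠ 0})) := by
  obtain ⟨r₀, h0, h1⟩ := reach_all
  refine ⟨r₀, h0, fun r hr hr0 => ?_⟩
  set S : Set ℂ := closure (sig (cc r) '' {n | n ≠ 0}) with hS
  have hcomp : IsCompact S := by
    refine Metric.isCompact_of_isClosed_isBounded isClosed_closure ?_
    refine Bornology.IsBounded.closure ?_
    refine (Metric.isBounded_closedBall (x := (0 : ℂ)) (r := Z r)).subset ?_
    rintro _ ⟨n, -, rfl⟩
    rw [mem_closedBall_zero_iff]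
    exact norm_sig_le hr n
  rw [isPreconnected_iff_subset_of_fully_disjoint_closed isClosed_closure]
  intro u v hu hv huv hd
  have hdisj : Disjoint (S ∩ u) v := Set.disjoint_of_subset_left Set.inter_subset_right hd
  obtain ⟨δ, hδ, hth⟩ := hdisj.exists_thickenings (hcomp.inter_right hu) hv
  have hmem : ∀ n : ℕ, n ≠ 0 → sig (cc r) n ∈ S := fun n hn => subset_closure ⟨n, hn, rfl⟩
  have hone : ∀ m n : ℕ, m ≠ 0 → n ≠ 0 → ‖sig (cc r) m - sig (cc r) n‖ < δ →
      sig (cc r) m ∈ u → sig (cc r) n ∈ u := by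
    intro m n hm hn hmn hmu
    by_contra hnu
    have hnv : sig (cc r) n ∈ v := (huv (hmem n hn)).resolve_left hnu
    have k1 : sig (cc r) n ∈ Metric.thickening δ (S ∩ u) := by
      rw [Metric.mem_thickening_iff]
      exact ⟨_, ⟨hmem m hm, hmu⟩, by rw [dist_comm, dist_eq_norm]; exact hmn⟩
    exact Set.disjoint_left.mp hth k1 (Metric.self_subset_thickening hδ _ hnv)
  have hall := colour hr (h1 r hr hr0) (g := fun n => sig (cc r) n ∈ u) hδ
    (fun m n hm hn hmn => ⟨hone m n hm hn hmn, hone n m hn hm (by rwa [norm_sub_rev])⟩)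
  by_cases h1u : sig (cc r) 1 ∈ u
  · left
    refine closure_minimal ?_ hu
    rintro _ ⟨n, hn, rfl⟩
    exact (hall n hn).mpr h1u
  · right
    refine closure_minimal ?_ hv
    rintro _ ⟨n, hn, rfl⟩
    exact (huv (hmem n hn)).resolve_left fun h => h1u ((hall n hn).mp h)

end R464.DC
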