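import Mathlib

/-!
# Steering in the plane with signed sums of vectors of two almost orthogonal directions
-/

set_option autoImplicit false

open Finset Complex ComplexConjugate

namespace R464.DC

/-- `R'` can be reached from `R` with the signed vectors `v q`, `q ∈ S`. -/
def Reach (v : ℕ → ℂ) (S : Finset ℕ) (R R' : ℂ) : Prop :=
  ∃ P N : Finset ℕ, P ⊆ S ∧ N ⊆ S ∧ Disjoint P N ∧ R' = R - (∑ q ∈ P, v q - ∑ q ∈ N, v q)

theorem Reach.refl (v : ℕ → ℂ) (S : Finset ℕ) (R : ℂ) : Reach v S R R :=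
  ⟨∅, ∅, by simp, by simp, by simp, by simp⟩

theorem Reach.mono {v : ℕ → ℂ} {S T : Finset ℕ} {R R' : ℂ} (h : Reach v S R R') (hST : S ⊆ T) :
    Reach v T R R' := by
  obtain ⟨P, N, hP, hN, hd, he⟩ := h
  exact ⟨P, N, hP.trans hST, hN.trans hST, hd, he⟩

theorem Reach.trans {v : ℕ → ℂ} {S T : Finset ℕ} {R R' R'' : ℂ} (h : Reach v S R R')
    (h' : Reach v T R' R'') (hST : Disjoint S T) : Reach v (S ∪ T) R R'' := by
  obtain ⟨P, N, hP, hN, hd, he⟩ := h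
  obtain ⟨P', N', hP', hN', hd', he'⟩ := h'
  refine ⟨P ∪ P', N ∪ N', union_subset_union hP hP', union_subset_union hN hN', ?_, ?_⟩
  · rw [disjoint_union_left, disjoint_union_right, disjoint_union_right]
    exact ⟨⟨hd, disjoint_of_subset_left hP (disjoint_of_subset_right hN' hST)⟩,
      ⟨(disjoint_of_subset_left hN (disjoint_of_subset_right hP' hST)).symm, hd'⟩⟩
  · rw [sum_union (disjoint_of_subset_left hP (disjoint_of_subset_right hP' hST)),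
      sum_union (disjoint_of_subset_left hN (disjoint_of_subset_right hN' hST)), he', he]
    ring

theorem reach_sign {v : ℕ → ℂ} {S A : Finset ℕ} {R ε : ℂ} (hε : ε = 1 ∨ ε = -1) (hA : A ⊆ S) :
    Reach v S R (R - ε * ∑ q ∈ A, v q) := by
  rcases hε with rfl | rfl
  · exact ⟨A, ∅, hA, by simp, by simp, by simp⟩
  · exact ⟨∅, A, by simp, hA, by simp, by simp⟩

theorem one_sided {R v u : ℂ} {a s : ℝ} (hu : ‖u‖ = 1) (ha : 0 < a) (has : a ≤ s)
    (hv : ‖v - a * u‖ ≤ a / 4) (h : ‖R‖ ≤ ‖R - v‖) :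
    (R * conj u).re ≤ 25 / 32 * s + ‖R‖ / 4 := by
  have h1 : ‖R‖ ^ 2 ≤ ‖R - v‖ ^ 2 := pow_le_pow_left₀ (norm_nonneg _) h 2
  have h2 : ‖R - v‖ ^ 2 = ‖R‖ ^ 2 - 2 * (R * conj v).re + ‖v‖ ^ 2 := by
    rw [← Complex.normSq_eq_norm_sq, ← Complex.normSq_eq_norm_sq, ← Complex.normSq_eq_norm_sq,
      Complex.normSq_sub]
    ring
  have h3 : ‖v‖ ≤ 5 / 4 * a := by
    have : ‖v‖ ≤ ‖v - a * u‖ + ‖(a : ℂ) * u‖ := by
      have := norm_add_le (v - a * u) (a * u)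
      rwa [sub_add_cancel] at this
    rw [norm_mul, hu, mul_one, Complex.norm_real, Real.norm_eq_abs, abs_of_pos ha] at this
    linarith
  have h4 : ‖v‖ ^ 2 ≤ (5 / 4 * a) ^ 2 := pow_le_pow_left₀ (norm_nonneg _) h3 2
  have h5 : (R * conj v).re = a * (R * conj u).re + (R * conj (v - a * u)).re := by
    simp only [map_sub, map_mul, Complex.conj_ofReal, Complex.mul_re, Complex.sub_re,
      Complex.sub_im, Complex.conj_re, Complex.conj_im, Complex.ofReal_re, Complex.ofReal_im,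
      Complex.mul_im]
    ring
  have h6 : -(‖R‖ * (a / 4)) ≤ (R * conj (v - a * u)).re := by
    have k1 := Complex.abs_re_le_norm (R * conj (v - a * u))
    rw [norm_mul, Complex.norm_conj] at k1
    have k2 : ‖R‖ * ‖v - a * u‖ ≤ ‖R‖ * (a / 4) := mul_le_mul_of_nonneg_left hv (norm_nonneg _)
    linarith [neg_abs_le (R * conj (v - a * u)).re]
  have h7 : a * (R * conj u).re ≤ a * (25 / 32 * a + ‖R‖ / 4) := by nlinarith
  have h8 := le_of_mul_le_mul_left h7 ha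
  linarith

/-- The sum of a subfamily is near the corresponding multiple of `u`. -/
theorem sum_near {v : ℕ → ℂ} {a : ℕ → ℝ} {A : Finset ℕ} {u : ℂ}
    (h : ∀ q ∈ A, ‖v q - a q * u‖ ≤ a q / 4) :
    ‖∑ q ∈ A, v q - (∑ q ∈ A, a q : ℝ) * u‖ ≤ (∑ q ∈ A, a q) / 4 := by
  have : ∑ q ∈ A, v q - (∑ q ∈ A, a q : ℝ) * u = ∑ q ∈ A, (v q - a q * u) := by
    rw [sum_sub_distrib, ofReal_sum, sum_mul]
  rw [this, sum_div]
  exact norm_sum_le_of_le _ h

/-- Two vectors near the directions `1` and `I`. -/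
theorem sum_bound {σ τ ε ε' : ℂ} {M M' : ℝ} (hε : ε = 1 ∨ ε = -1)
    (hε' : ε' = 1 ∨ ε' = -1) (h : ‖σ - M‖ ≤ M / 4) (h' : ‖τ - M' * I‖ ≤ M' / 4) :
    M + M' ≤ 4 * ‖ε * σ + ε' * τ‖ := by
  have a1 := (abs_le.mp ((Complex.abs_re_le_norm (σ - M)).trans h))
  have a2 := (abs_le.mp ((Complex.abs_im_le_norm (σ - M)).trans h))
  have a3 := (abs_le.mp ((Complex.abs_re_le_norm (τ - M' * I)).trans h'))
  have a4 := (abs_le.mp ((Complex.abs_im_le_norm (τ - M' * I)).trans h'))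
  simp only [Complex.sub_re, Complex.sub_im, Complex.mul_re, Complex.mul_im, Complex.ofReal_re,
    Complex.ofReal_im, Complex.I_re, Complex.I_im] at a1 a2 a3 a4
  have b1 := abs_le.mp (Complex.abs_re_le_norm (ε * σ + ε' * τ))
  have b2 := abs_le.mp (Complex.abs_im_le_norm (ε * σ + ε' * τ))
  rcases hε with rfl | rfl <;> rcases hε' with rfl | rfl <;>
    simp only [Complex.add_re, Complex.add_im, Complex.neg_re, Complex.neg_im, one_mul,
      neg_mul] at b1 b2 ⊢ <;> linarith [a1.1, a1.2, a2.1, a2.2, a3.1, a3.2, a4.1, a4.2, b1.1, b1.2,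
      b2.1, b2.2]

/-- The main step. -/
theorem steer_one {v : ℕ → ℂ} {a : ℕ → ℝ} {S T : Finset ℕ} (hST : Disjoint S T) {s : ℝ} (R : ℂ)
    (hS : ∀ q ∈ S, 0 < a q ∧ a q ≤ s ∧ ‖v q - a q‖ ≤ a q / 4)
    (hT : ∀ q ∈ T, 0 < a q ∧ a q ≤ s ∧ ‖v q - a q * I‖ ≤ a q / 4)
    (hSM : 8 * ‖R‖ < ∑ q ∈ S, a q) (hTM : 8 * ‖R‖ < ∑ q ∈ T, a q) :
    ∃ R', ‖R'‖ ≤ 4 * s ∧ Reach v (S ∪ T) R R' := by
  classical
  let E : Finset ℂ := {1, -1}
  have hE : ∀ ε ∈ E, ε = 1 ∨ ε = -1 := fun ε h => by simpa [E] using h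
  have hE' : ∀ ε ∈ E, -ε ∈ E := fun ε h => by
    rcases hE ε h with rfl | rfl <;> simp [E]
  let val : (ℂ × Finset ℕ) × (ℂ × Finset ℕ) → ℝ := fun x =>
    ‖R - x.1.1 * ∑ q ∈ x.1.2, v q - x.2.1 * ∑ q ∈ x.2.2, v q‖
  let F : Finset ((ℂ × Finset ℕ) × (ℂ × Finset ℕ)) := (E ×ˢ S.powerset) ×ˢ (E ×ˢ T.powerset)
  have h0 : ((1, ∅), (1, ∅)) ∈ F := by simp [F, E]
  obtain ⟨⟨⟨ε, A⟩, ⟨ε', A'⟩⟩, hx, hmin⟩ := exists_min_image F val ⟨_, h0⟩
  simp only [F, mem_product, mem_powerset] at hx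
  obtain ⟨⟨hε, hA⟩, hε', hA'⟩ := hx
  have hmin' : ∀ δ ∈ E, ∀ D ⊆ S, ∀ δ' ∈ E, ∀ D' ⊆ T,
      ‖R - ε * ∑ q ∈ A, v q - ε' * ∑ q ∈ A', v q‖ ≤
      ‖R - δ * ∑ q ∈ D, v q - δ' * ∑ q ∈ D', v q‖ := by
    intro δ hδ D hD δ' hδ' D' hD'
    exact hmin ((δ, D), (δ', D')) (by simp [F, hδ, hD, hδ', hD'])
  set R' : ℂ := R - ε * ∑ q ∈ A, v q - ε' * ∑ q ∈ A', v q with hR'
  have hle : ‖R'‖ ≤ ‖R‖ := by
    have := hmin' 1 (by simp [E]) ∅ (by simp) 1 (by simp [E]) ∅ (by simp)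
    simpa using this
  -- total masses are small
  have hbd : (∑ q ∈ A, a q) + ∑ q ∈ A', a q ≤ 8 * ‖R‖ := by
    have k1 := sum_bound (σ := ∑ q ∈ A, v q) (τ := ∑ q ∈ A', v q) (M := ∑ q ∈ A, a q)
      (M' := ∑ q ∈ A', a q) (hE ε hε) (hE ε' hε')
      (by
        have := sum_near (v := v) (a := a) (A := A) (u := 1)
          (fun q hq => by simpa using (hS q (hA hq)).2.2)
        simpa using this)
      (sum_near (v := v) (a := a) (A := A') (u := I) (fun q hq => (hT q (hA' hq)).2.2))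
    have k2 : ε * ∑ q ∈ A, v q + ε' * ∑ q ∈ A', v q = R - R' := by rw [hR']; ring
    rw [k2] at k1
    have k3 := norm_sub_le R R'
    linarith
  have hAne : ∃ q ∈ S, q ∉ A := by
    by_contra hcon
    push Not at hcon
    have : A = S := Subset.antisymm hA hcon
    rw [this] at hbd
    have : 0 ≤ ∑ q ∈ A', a q := sum_nonneg fun q hq => (hT q (hA' hq)).1.le
    linarith
  have hAne' : ∃ q ∈ T, q ∉ A' := by
    by_contra hcon
    push Not at hcon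
    have : A' = T := Subset.antisymm hA' hcon
    rw [this] at hbd
    have : 0 ≤ ∑ q ∈ A, a q := sum_nonneg fun q hq => (hS q (hA hq)).1.le
    linarith
  -- adding or removing a vector
  have key : ∀ (δ : ℂ) (D : Finset ℕ) (U : Finset ℕ), δ ∈ E → D ⊆ U → (∃ q ∈ U, q ∉ D) →
      (∀ δ' ∈ E, ∀ D' ⊆ U, ‖R'‖ ≤ ‖R' + δ * ∑ q ∈ D, v q - δ' * ∑ q ∈ D', v q‖) →
      (∃ q ∈ U, ‖R'‖ ≤ ‖R' - v q‖) ∧ (∃ q ∈ U, ‖R'‖ ≤ ‖R' - -v q‖) := by
    intro δ D U hδ hD hne h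
    obtain ⟨q, hqU, hqD⟩ := hne
    have h1 : ‖R'‖ ≤ ‖R' - δ * v q‖ := by
      have := h δ hδ (insert q D) (insert_subset hqU hD)
      rw [sum_insert hqD] at this
      refine this.trans_eq ?_
      congr 1; ring
    have h2 : ∃ q ∈ U, ‖R'‖ ≤ ‖R' + δ * v q‖ := by
      by_cases hDe : D = ∅
      · refine ⟨q, hqU, ?_⟩
        have := h (-δ) (hE' δ hδ) {q} (by simpa using hqU)
        rw [hDe] at this
        refine this.trans_eq ?_
        congr 1; simp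
      · obtain ⟨p, hp⟩ := nonempty_iff_ne_empty.mpr hDe
        refine ⟨p, hD hp, ?_⟩
        have := h δ hδ (D.erase p) ((erase_subset _ _).trans hD)
        rw [← add_sum_erase D v hp] at this
        refine this.trans_eq ?_
        congr 1; ring
    obtain ⟨p, hpU, h2⟩ := h2
    rcases hE δ hδ with rfl | rfl
    · exact ⟨⟨q, hqU, by simpa using h1⟩, ⟨p, hpU, by simpa using h2⟩⟩
    · refine ⟨⟨p, hpU, ?_⟩, ⟨q, hqU, ?_⟩⟩
      · refine h2.trans_eq ?_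
        congr 1; ring
      · refine h1.trans_eq ?_
        congr 1; ring
  obtain ⟨⟨q1, hq1, g1⟩, ⟨q2, hq2, g2⟩⟩ := key ε A S hε hA hAne (fun δ' hδ' D' hD' => by
    refine (hmin' δ' hδ' D' hD' ε' hε' A' hA').trans_eq ?_
    congr 1; rw [hR']; ring)
  obtain ⟨⟨q3, hq3, g3⟩, ⟨q4, hq4, g4⟩⟩ := key ε' A' T hε' hA' hAne' (fun δ' hδ' D' hD' => by
    refine (hmin' ε hε A hA δ' hδ' D' hD').trans_eq ?_
    congr 1; rw [hR']; ring)
  have f1 := one_sided (u := 1) (by simp) (hS q1 hq1).1 (hS q1 hq1).2.1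
    (by simpa using (hS q1 hq1).2.2) g1
  have f2 := one_sided (u := -1) (v := -v q2) (by simp) (hS q2 hq2).1 (hS q2 hq2).2.1
    (by
      have := (hS q2 hq2).2.2
      rw [← norm_neg] at this
      refine le_trans (le_of_eq ?_) this
      congr 1; ring) g2
  have f3 := one_sided (u := I) (by simp) (hT q3 hq3).1 (hT q3 hq3).2.1 (hT q3 hq3).2.2 g3
  have f4 := one_sided (u := -I) (v := -v q4) (by simp) (hT q4 hq4).1 (hT q4 hq4).2.1
    (by
      have := (hT q4 hq4).2.2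
      rw [← norm_neg] at this
      refine le_trans (le_of_eq ?_) this
      congr 1; ring) g4
  simp only [map_one, mul_one, map_neg, Complex.conj_I, neg_neg, mul_neg, Complex.neg_re,
    Complex.mul_re, Complex.I_re, Complex.I_im, mul_zero, zero_sub] at f1 f2 f3 f4
  refine ⟨R', ?_, ?_⟩
  · have e1 : |R'.re| ≤ 25 / 32 * s + ‖R'‖ / 4 := abs_le.mpr ⟨by linarith, by linarith⟩
    have e2 : |R'.im| ≤ 25 / 32 * s + ‖R'‖ / 4 := abs_le.mpr ⟨by linarith, by linarith⟩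
    have e3 := Complex.norm_le_abs_re_add_abs_im R'
    have e4 : 0 ≤ s := (hS q1 hq1).1.le.trans (hS q1 hq1).2.1
    linarith
  · exact (reach_sign (hE ε hε) hA).trans (reach_sign (hE ε' hε') hA') hST

/-- The steering lemma. -/
theorem steer {v : ℕ → ℂ} {a : ℕ → ℝ} {S T : Finset ℕ} (hST : Disjoint S T) {s : ℝ} {u : ℂ}
    (hu : ‖u‖ = 1) (R : ℂ)
    (hS : ∀ q ∈ S, 0 < a q ∧ a q ≤ s ∧ ‖v q - a q * u‖ ≤ a q / 4)
    (hT : ∀ q ∈ T, 0 < a q ∧ a q ≤ s ∧ ‖v q - a q * (I * u)‖ ≤ a q / 4)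
    (hSM : 8 * ‖R‖ < ∑ q ∈ S, a q) (hTM : 8 * ‖R‖ < ∑ q ∈ T, a q) :
    ∃ R', ‖R'‖ ≤ 4 * s ∧ Reach v (S ∪ T) R R' := by
  have huu : u * conj u = 1 := by
    rw [Complex.mul_conj, Complex.normSq_eq_norm_sq, hu]; simp
  have hcu : ‖conj u‖ = 1 := by rw [Complex.norm_conj, hu]
  obtain ⟨R', h1, P, N, hP, hN, hd, he⟩ := steer_one (v := fun q => v q * conj u) (a := a) hST
    (s := s) (R * conj u) (fun q hq => ⟨(hS q hq).1, (hS q hq).2.1, by
      have : v q * conj u - a q = (v q - a q * u) * conj u := by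
        rw [sub_mul, mul_assoc (a q : ℂ), huu, mul_one]
      rw [this, norm_mul, hcu, mul_one]
      exact (hS q hq).2.2⟩) (fun q hq => ⟨(hT q hq).1, (hT q hq).2.1, by
      have : v q * conj u - a q * I = (v q - a q * (I * u)) * conj u := by
        rw [sub_mul, mul_assoc (a q : ℂ), mul_assoc I, huu, mul_one]
      rw [this, norm_mul, hcu, mul_one]
      exact (hT q hq).2.2⟩) (by rw [norm_mul, hcu, mul_one]; exact hSM)
      (by rw [norm_mul, hcu, mul_one]; exact hTM)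
  refine ⟨R' * u, by rw [norm_mul, hu, mul_one]; exact h1, P, N, hP, hN, hd, ?_⟩
  rw [he, ← sum_mul, ← sum_mul, sub_mul, mul_assoc R, mul_comm (conj u), huu, mul_one, ← sub_mul,
    mul_assoc _ (conj u), mul_comm (conj u), huu, mul_one]

end R464.DC
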